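import Pool.Agent.Helper49.RC.StSharp
import Pool.Agent.Helper43.SH.Sym

/-!
# Project RC, SHARP, link 4: the pointwise local lemma in the complex form of `StSharp.lean`

`locS`: the right side is literally the one of `Par.Loc` (directions `ee (arg (om + z0))`, `ee (arg (om² - z0))`).
-/

set_option autoImplicit false

open MeasureTheory Set Filter Metric

namespace Helper50.SH

open Helper49.LT hiding sg
open Helper49.RC Helper44.GQ Helper44.GQ.SELQ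
open Helper49.Sharp (g1 g2 exc)
open Pool.Agent.Helper88.P4 (nr rk RS Ineq)

/-- the base directions at `b = 0` -/
noncomputable def d1 : ℂ := ⟨1 / 2, Real.sqrt 3 / 2⟩
noncomputable def d2 : ℂ := ⟨-(1 / 2), Real.sqrt 3 / 2⟩

theorem g1_zero (z : ℂ) : g1 0 z = d1 + z := by
  apply Complex.ext
  · simp [g1, d1, aQ, cQ]
  · simp [g1, d1, aQ, cQ]

theorem g2_zero (z : ℂ) : g2 0 z = d2 - z := by
  apply Complex.ext
  · simp [g2, d2, aQ, cQ]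
  · simp [g2, d2, aQ, cQ]

theorem s3 : Real.sqrt 3 ^ 2 = 3 := Real.sq_sqrt (by norm_num)

theorem s3p : 0 < Real.sqrt 3 := by positivity

theorem norm_nr (w : ℂ) (X Y : ℝ) (h1 : w.re = X) (h2 : w.im = Real.sqrt 3 * Y) : ‖w‖ = nr X Y := by
  unfold nr
  rw [Complex.norm_eq_sqrt_sq_add_sq, h1, h2, mul_pow, s3]

/-- excess over the direction of `D` -/
theorem exc_arg (D e : ℂ) (hD : D ≠ 0) : exc (ee D.arg) e = ‖e‖ - (D.re * e.re + D.im * e.im) / ‖D‖ := by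
  have hn : 0 < ‖D‖ := norm_pos_iff.mpr hD
  have h1 : ee D.arg = D / (‖D‖ : ℂ) := by
    have h2 := Complex.norm_mul_exp_arg_mul_I D
    have h3 : ee D.arg = Complex.exp (D.arg * Complex.I) := rfl
    rw [h3]
    rw [eq_div_iff (by exact_mod_cast hn.ne'), mul_comm]
    exact h2
  unfold exc
  rw [h1, map_div₀, Complex.conj_ofReal, div_mul_eq_mul_div, Complex.div_ofReal_re]
  simp only [Complex.mul_re, Complex.conj_re, Complex.conj_im]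
  ring

theorem exc_rk (D e : ℂ) (Dx Dy ex ey : ℝ) (hD : D ≠ 0) (h1 : D.re = Dx) (h2 : D.im = Real.sqrt 3 * Dy)
    (h3 : e.re = ex) (h4 : e.im = Real.sqrt 3 * ey) : exc (ee D.arg) e = rk Dx Dy ex ey := by
  rw [exc_arg D e hD, norm_nr e ex ey h3 h4, norm_nr D Dx Dy h1 h2, h1, h2, h3, h4]
  unfold rk
  have e1 : Dx * ex + Real.sqrt 3 * Dy * (Real.sqrt 3 * ey) = Dx * ex + 3 * (Dy * ey) := by
    linear_combination (Dy * ey) * s3
  rw [e1]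

theorem norm_d1 : ‖d1‖ = 1 := by
  rw [norm_nr d1 (1 / 2) (1 / 2) rfl (by show Real.sqrt 3 / 2 = _; ring)]
  unfold nr
  norm_num

theorem norm_d2 : ‖d2‖ = 1 := by
  rw [norm_nr d2 (-(1 / 2)) (1 / 2) rfl (by show Real.sqrt 3 / 2 = _; ring)]
  unfold nr
  norm_num

theorem ne_of {d z : ℂ} (hd : ‖d‖ = 1) (hz : ‖z‖ < 1) : d + z ≠ 0 := by
  intro h
  have h1 : d = -z := eq_neg_of_add_eq_zero_left h
  rw [h1, norm_neg] at hd
  linarith

/-- the four excesses are the sum `RS` of helper88 -/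
theorem exc_RS (z0 b z : ℂ) (hz0 : ‖z0‖ < 1) :
    exc (ee (d1 + z0).arg) (g1 b z) + exc (ee (d2 - z0).arg) (g2 b z)
      + exc (ee (d1 - z0).arg) (g1 b (-z)) + exc (ee (d2 + z0).arg) (g2 b (-z))
    = RS z0.re (z0.im / Real.sqrt 3) b.re (b.im / Real.sqrt 3) z.re (z.im / Real.sqrt 3) := by
  have h3 := s3p.ne'
  obtain ⟨x0, hx0⟩ : ∃ x0, x0 = z0.re := ⟨_, rfl⟩
  obtain ⟨y0, hy0⟩ : ∃ y0, y0 = z0.im / Real.sqrt 3 := ⟨_, rfl⟩
  obtain ⟨b2, hb2⟩ : ∃ b2, b2 = b.re := ⟨_, rfl⟩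
  obtain ⟨g, hg⟩ : ∃ g, g = b.im / Real.sqrt 3 := ⟨_, rfl⟩
  obtain ⟨x, hx⟩ : ∃ x, x = z.re := ⟨_, rfl⟩
  obtain ⟨y, hy⟩ : ∃ y, y = z.im / Real.sqrt 3 := ⟨_, rfl⟩
  have hy0' : z0.im = Real.sqrt 3 * y0 := by rw [hy0]; field_simp
  have hg' : b.im = Real.sqrt 3 * g := by rw [hg]; field_simp
  have hy' : z.im = Real.sqrt 3 * y := by rw [hy]; field_simp
  have mz : ‖-z0‖ < 1 := by rwa [norm_neg]
  have r1 : ∀ p : ℂ, (g1 b p).re = 1 / 2 + b2 / 2 + 3 * g + p.re := by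
    intro p
    simp only [g1, Complex.add_re, cQ_re, aQ_re, Complex.mul_re, hg', ← hb2]
    norm_num
    linear_combination (g : ℝ) * s3
  have i1 : ∀ p : ℂ, (g1 b p).im = Real.sqrt 3 * (1 / 2 - b2 / 2 + g / 4) + p.im := by
    intro p
    simp only [g1, Complex.add_im, cQ_im, aQ_im, Complex.mul_im, hg', ← hb2]
    norm_num
    ring
  have r2 : ∀ p : ℂ, (g2 b p).re = -1 / 2 - b2 / 2 + 3 * g - p.re := by
    intro p
    simp only [g2, Complex.sub_re, cQ_re, aQ_re, Complex.mul_re, hg', ← hb2]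
    norm_num
    linear_combination (g : ℝ) * s3
  have i2 : ∀ p : ℂ, (g2 b p).im = Real.sqrt 3 * (1 / 2 - b2 / 2 - g / 4) - p.im := by
    intro p
    simp only [g2, Complex.sub_im, cQ_im, aQ_im, Complex.mul_im, hg', ← hb2]
    norm_num
    ring
  unfold RS
  rw [← hx0, ← hy0, ← hb2, ← hg, ← hx, ← hy]
  rw [exc_rk (d1 + z0) (g1 b z) (1 / 2 + x0) (1 / 2 + y0) (1 / 2 + b2 / 2 + 3 * g + x)
      (1 / 2 - b2 / 2 + g / 4 + y) (ne_of norm_d1 hz0)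
      (by rw [Complex.add_re, hx0]; rfl) (by rw [Complex.add_im, hy0']; show Real.sqrt 3 / 2 + _ = _; ring)
      (by rw [r1, hx]) (by rw [i1, hy']; ring),
    exc_rk (d1 - z0) (g1 b (-z)) (1 / 2 - x0) (1 / 2 - y0) (1 / 2 + b2 / 2 + 3 * g - x)
      (1 / 2 - b2 / 2 + g / 4 - y) (by rw [sub_eq_add_neg]; exact ne_of norm_d1 mz)
      (by rw [Complex.sub_re, hx0]; rfl) (by rw [Complex.sub_im, hy0']; show Real.sqrt 3 / 2 - _ = _; ring)
      (by rw [r1, Complex.neg_re, hx]; ring) (by rw [i1, Complex.neg_im, hy']; ring),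
    exc_rk (d2 + z0) (g2 b (-z)) (-1 / 2 + x0) (1 / 2 + y0) (-1 / 2 - b2 / 2 + 3 * g + x)
      (1 / 2 - b2 / 2 - g / 4 + y) (ne_of norm_d2 hz0)
      (by rw [Complex.add_re, hx0]; show -(1 / 2) + _ = _; ring)
      (by rw [Complex.add_im, hy0']; show Real.sqrt 3 / 2 + _ = _; ring)
      (by rw [r2, Complex.neg_re, hx]; ring) (by rw [i2, Complex.neg_im, hy']; ring),
    exc_rk (d2 - z0) (g2 b z) (-1 / 2 - x0) (1 / 2 - y0) (-1 / 2 - b2 / 2 + 3 * g - x)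
      (1 / 2 - b2 / 2 - g / 4 - y) (by rw [sub_eq_add_neg]; exact ne_of norm_d2 mz)
      (by rw [Complex.sub_re, hx0]; show -(1 / 2) - _ = _; ring)
      (by rw [Complex.sub_im, hy0']; show Real.sqrt 3 / 2 - _ = _; ring)
      (by rw [r2, hx]) (by rw [i2, hy']; ring)]
  ring

/-- the domain -/
theorem dom_of {b z : ℂ} (h : Helper49.Sharp.Dom b z) :
    Pool.Agent.Helper88.P4.Dom b.re (b.im / Real.sqrt 3) z.re (z.im / Real.sqrt 3) := by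
  obtain ⟨hb, X, Y, hX, hY, hz⟩ := h
  have h3 := s3p.ne'
  obtain ⟨g, hg⟩ : ∃ g, g = b.im / Real.sqrt 3 := ⟨_, rfl⟩
  have hg' : b.im = Real.sqrt 3 * g := by rw [hg]; field_simp
  have hnb : b.re ^ 2 + 3 * g ^ 2 ≤ 1 := by
    have h4 : ‖b‖ ^ 2 ≤ 1 := by nlinarith [norm_nonneg b]
    rw [Complex.sq_norm, Complex.normSq_apply, hg'] at h4
    have e : b.re * b.re + Real.sqrt 3 * g * (Real.sqrt 3 * g) = b.re ^ 2 + 3 * g ^ 2 := by
      linear_combination (g ^ 2) * s3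
    rw [e] at h4
    exact h4
  rw [← hg]
  refine ⟨hnb, X, Y, hX, hY, ?_, ?_⟩
  · have h4 := congrArg Complex.re hz
    rw [Complex.add_re, Complex.re_ofReal_mul, Complex.re_ofReal_mul, aQ_re, cQ_re, hg'] at h4
    rw [h4]
    linear_combination (Y * g) * s3
  · have h4 := congrArg Complex.im hz
    rw [Complex.add_im, Complex.im_ofReal_mul, Complex.im_ofReal_mul, aQ_im, cQ_im, hg'] at h4
    rw [h4, div_eq_iff h3]
    ring

/-- LINK (4), complex form, one base point, any centre `b0` of the price. -/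
theorem locS {f P2 P3 : ℝ} {z0 b0 : ℂ} (hz0 : ‖z0‖ < 1)
    (H : ∀ b g x y : ℝ, Pool.Agent.Helper88.P4.Dom b g x y →
      Ineq f P2 P3 b0.re (b0.im / Real.sqrt 3) z0.re (z0.im / Real.sqrt 3) b g x y)
    (b z : ℂ) (hD : Helper49.Sharp.Dom b z) :
    f * (3 / 2 * (z - z0).re ^ 2 + 1 / 2 * (z - z0).im ^ 2)
      - P2 * (b - b0).re ^ 2 - P3 * (b - b0).im ^ 2
    ≤ exc (ee (d1 + z0).arg) (g1 b z) + exc (ee (d2 - z0).arg) (g2 b z)
      + exc (ee (d1 - z0).arg) (g1 b (-z)) + exc (ee (d2 + z0).arg) (g2 b (-z)) := by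
  have h3 := s3p.ne'
  have h1 := H _ _ _ _ (dom_of hD)
  rw [exc_RS z0 b z hz0]
  unfold Ineq at h1
  have e1 : 3 / 2 * f * ((z.re - z0.re) ^ 2 + (z.im / Real.sqrt 3 - z0.im / Real.sqrt 3) ^ 2) =
      f * (3 / 2 * (z - z0).re ^ 2 + 1 / 2 * (z - z0).im ^ 2) := by
    rw [← sub_div, div_pow, s3, Complex.sub_re, Complex.sub_im]
    ring
  have e2 : 3 * P3 * (b.im / Real.sqrt 3 - b0.im / Real.sqrt 3) ^ 2 = P3 * (b - b0).im ^ 2 := by
    rw [← sub_div, div_pow, s3, Complex.sub_im]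
    ring
  rw [e1, e2] at h1
  simp only [Complex.sub_re] at h1 ⊢
  linarith

/-- The real statement with `f = α - β |z0|²` on the disc of radius `R` and the box of price centres. -/
def P4F (α β P2 P3 lo hi be R : ℝ) : Prop :=
  ∀ x0 y0 : ℝ, x0 ^ 2 + 3 * y0 ^ 2 ≤ R ^ 2 → ∀ c h : ℝ, lo ≤ c → c ≤ hi → |h| ≤ be →
  ∀ b g x y : ℝ, Pool.Agent.Helper88.P4.Dom b g x y →
    Ineq (α - β * (x0 ^ 2 + 3 * y0 ^ 2)) P2 P3 c h x0 y0 b g x y

/-- LINK (4), complex form. -/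
theorem locF {α β P2 P3 lo hi be R : ℝ} (H : P4F α β P2 P3 lo hi be R) (hR0 : 0 ≤ R) (hR1 : R < 1)
    {z0 b0 : ℂ} (hz0 : ‖z0‖ ≤ R) (h1 : lo ≤ b0.re) (h2 : b0.re ≤ hi) (h3 : |b0.im| ≤ Real.sqrt 3 * be)
    (b z : ℂ) (hD : Helper49.Sharp.Dom b z) :
    (α - β * ‖z0‖ ^ 2) * (3 / 2 * (z - z0).re ^ 2 + 1 / 2 * (z - z0).im ^ 2)
      - P2 * (b - b0).re ^ 2 - P3 * (b - b0).im ^ 2
    ≤ exc (ee (d1 + z0).arg) (g1 b z) + exc (ee (d2 - z0).arg) (g2 b z)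
      + exc (ee (d1 - z0).arg) (g1 b (-z)) + exc (ee (d2 + z0).arg) (g2 b (-z)) := by
  have e : z0.re ^ 2 + 3 * (z0.im / Real.sqrt 3) ^ 2 = ‖z0‖ ^ 2 := by
    rw [div_pow, s3, Complex.sq_norm, Complex.normSq_apply]
    ring
  refine locS (by linarith) (fun b' g x y hd => ?_) b z hD
  have h4 := H z0.re (z0.im / Real.sqrt 3) (by rw [e]; exact pow_le_pow_left₀ (norm_nonneg _) hz0 2)
    b0.re (b0.im / Real.sqrt 3) h1 h2 (by
      rw [abs_div, abs_of_pos s3p, div_le_iff₀ s3p, mul_comm]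
      exact h3) b' g x y hd
  rw [e] at h4
  exact h4

open Helper49.Sharp (Par)

/-- the condition `Loc` of the skeleton -/
theorem loc_par (P : Par) {α β P2 P3 lo hi be R : ℝ} (H : P4F α β P2 P3 lo hi be R) (hR0 : 0 ≤ R)
    (hR1 : R < 1) (z0 b0 : ℝ → ℂ) (pz : ∀ t, z0 (t + Real.pi) = -z0 t) (hz : ∀ t, ‖z0 t‖ ≤ R)
    (h1 : ∀ t, lo ≤ (b0 t).re) (h2 : ∀ t, (b0 t).re ≤ hi) (h3 : ∀ t, |(b0 t).im| ≤ Real.sqrt 3 * be)
    (ha1 : ∀ t, P.a1 t = (d1 + z0 t).arg) (ha2 : ∀ t, P.a2 t = (d2 - z0 t).arg)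
    (hlo : ∀ t b z, P.lo t b z ≤ (α - β * ‖z0 t‖ ^ 2) * (3 / 2 * (z - z0 t).re ^ 2
      + 1 / 2 * (z - z0 t).im ^ 2) - P2 * (b - b0 t).re ^ 2 - P3 * (b - b0 t).im ^ 2) : P.Loc := by
  intro t b z hD
  have h := locF H hR0 hR1 (hz t) (h1 t) (h2 t) (h3 t) b z hD
  refine (hlo t b z).trans ?_
  unfold Par.u1 Par.u2
  rw [ha1, ha2, ha1, ha2, pz, ← sub_eq_add_neg, sub_neg_eq_add]
  exact h

/-- from the quarter `x0, y0 ≥ 0` -/
theorem P4F_of_quarter {α β P2 P3 lo hi be R : ℝ}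
    (H : ∀ x0 y0 : ℝ, 0 ≤ x0 → 0 ≤ y0 → x0 ^ 2 + 3 * y0 ^ 2 ≤ R ^ 2 →
      ∀ c h : ℝ, lo ≤ c → c ≤ hi → |h| ≤ be →
      ∀ b g x y : ℝ, Pool.Agent.Helper88.P4.Dom b g x y →
        Ineq (α - β * (x0 ^ 2 + 3 * y0 ^ 2)) P2 P3 c h x0 y0 b g x y) : P4F α β P2 P3 lo hi be R := by
  have K : ∀ x0 y0 : ℝ, 0 ≤ y0 → x0 ^ 2 + 3 * y0 ^ 2 ≤ R ^ 2 →
      ∀ c h : ℝ, lo ≤ c → c ≤ hi → |h| ≤ be →
      ∀ b g x y : ℝ, Pool.Agent.Helper88.P4.Dom b g x y →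
        Ineq (α - β * (x0 ^ 2 + 3 * y0 ^ 2)) P2 P3 c h x0 y0 b g x y := by
    intro x0 y0 hy h2 c h hc1 hc2 hh b g x y hD
    rcases le_total 0 x0 with hx | hx
    · exact H x0 y0 hx hy h2 c h hc1 hc2 hh b g x y hD
    · refine Pool.Agent.Helper43.SH.Ineq_mir ?_
      have h3 := H (-x0) y0 (by linarith) hy (by rwa [neg_sq]) c (-h) hc1 hc2
        (by rwa [abs_neg]) b (-g) (-x) y (Pool.Agent.Helper43.SH.Dom_mir hD)
      rwa [neg_sq] at h3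
  intro x0 y0 h2 c h hc1 hc2 hh b g x y hD
  rcases le_total 0 y0 with hy | hy
  · exact K x0 y0 hy h2 c h hc1 hc2 hh b g x y hD
  · refine Pool.Agent.Helper43.SH.Ineq_neg ?_
    have h3 := K (-x0) (-y0) (by linarith) (by rwa [neg_sq, neg_sq]) c h hc1 hc2 hh b g (-x) (-y)
      (Pool.Agent.Helper43.SH.Dom_neg hD)
    rwa [neg_sq, neg_sq] at h3

end Helper50.SH
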