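import Pool.Agent.Helper50.SH.GR

/-!
# SHARP (MP_b21509_co), link (6): the rows of `LinP - TailL`
-/

set_option autoImplicit false

open MeasureTheory Set Filter Topology

namespace Pool.Agent.Helper33.GM

open Helper49.LT hiding sg s3
open Helper49.RC (om)
open Helper49.Sharp
open Helper56.RC (fc)
open Helper87.RC (BM)
open Helper95.SH (Dat)
open Pool.Agent.Helper35.Cas (Po Co Mo evP evC evM uu vv frq)
open Pool.Agent.Helper33.SH (PI ZC b0I z0I)
open Pool.Agent.Helper33.GL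
open Pool.Agent.Helper43.SH (LinP g_BMd)
open Pool.Agent.Helper50.SH (EB EB.add EB.sub EB.mul EB.cst EB.cj EB.cmul EB.pow EB.sum EB.ee EB.br EB.bi V1_eb V2_eb
  X0_eb Y0_eb)
open Pool.Agent.Helper26.SH (N2)
open Pool.Agent.Helper40.NR (FP)

/-- (R'): the rows of `LinP - TailL` -/
theorem stR' {c : ZC} {A : ℝ} {B : ℂ} {ez ex ey : ℝ} {β ρ : ℝ → ℂ} (_hA : |A| + 3 / 2 * ‖B‖ ≤ 1 / 4)
    (hr : (PI c A B).Reg) (ds : Dat (b0I A B) (z0I A B))
    (hj : ∀ j : ℤ, 6 < |j| → fc ((PI c A B).al (b0I A B)) (2 * j) = 0)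
    (hm : MOD (PI c A B) (b0I A B) (z0I A B) A B ez ex ey) (hR : RB β ρ) :
    |LinP (PI c A B) (b0I A B) (z0I A B) β ρ - TailL (PI c A B) (b0I A B) (z0I A B) β ρ
        - (rsm A B (rwZ dz qz) (fc ρ)
      + rsm A B (rwP dx qx) (fc fun t => ((β t).re : ℂ)) + rsm A B (rwR dy qy) (fc fun t => ((β t).im : ℂ)))| ≤
    ez * N2 (fun t => ‖ρ t‖) + 2 * ex * N2 (fun t => (β t).re) + 2 * ey * N2 (fun t => (β t).im) := by
  have hga : (PI c A B).ga = fun _ => 0 := rfl
  have hL := Pool.Agent.Helper50.SH.hGA hGA1 Pool.Agent.Helper7.GL.hGA2 (PI c A B) (b0I A B) (z0I A B) β ρ hr hga ds hR hj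
  have hb : EB β := hR.bb
  have hρ : EB ρ := hR.br
  have hbs : EB (b0I A B) := by
    obtain ⟨_, _, _, kb⟩ := g_BMd ds
    exact ⟨_, kb⟩
  have v1 : EB (V1 (PI c A B) (b0I A B) (z0I A B)) := V1_eb hr
  have v2 : EB (V2 (PI c A B) (b0I A B) (z0I A B)) := V2_eb hr
  have x0 : EB (X0 (PI c A B) (b0I A B) (z0I A B)) := X0_eb hbs
  have y0 : EB (Y0 (PI c A B) (b0I A B) (z0I A B)) := Y0_eb hbs
  have gz : EB (GZ (PI c A B) (b0I A B) (z0I A B)) := (v1.sub v2).cmul 2
  have gx : EB (GX (PI c A B) (b0I A B) (z0I A B)) := ((v1.cmul om).add (v2.cmul (om ^ 2))).add x0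
  have gy : EB (GY (PI c A B) (b0I A B) (z0I A B)) := ((v1.cmul _).add (v2.cmul _)).add y0
  have pz : ∀ t, GZ (PI c A B) (b0I A B) (z0I A B) (t + 2 * Real.pi) = GZ (PI c A B) (b0I A B) (z0I A B) t := by
    intro t
    unfold GZ
    rw [V1_per hr, V2_per hr]
  have px : ∀ t, GX (PI c A B) (b0I A B) (z0I A B) (t + 2 * Real.pi) = GX (PI c A B) (b0I A B) (z0I A B) t := by
    intro t
    unfold GX
    rw [V1_per hr, V2_per hr, X0_per _ _ _ ds.pb]
  have py : ∀ t, GY (PI c A B) (b0I A B) (z0I A B) (t + 2 * Real.pi) = GY (PI c A B) (b0I A B) (z0I A B) t := by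
    intro t
    unfold GY
    rw [V1_per hr, V2_per hr, Y0_per _ _ _ ds.pb]
  set G1 := GZ (PI c A B) (b0I A B) (z0I A B) with hG1
  set G2 := GX (PI c A B) (b0I A B) (z0I A B) with hG2
  set G3 := GY (PI c A B) (b0I A B) (z0I A B) with hG3
  have hsh : ∀ {f : ℝ → ℂ}, EB f → EB fun t => f (t + Real.pi) := by
    intro f hf
    obtain ⟨C, hC⟩ := hf
    exact ⟨C, hC.m.comp (measurable_id.add_const _), fun t => hC.b _⟩
  have o1 : EB fun t => (G1 t - G1 (t + Real.pi)) / 2 := by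
    have := (gz.sub (hsh gz)).cmul (1 / 2)
    refine (congrArg EB (funext fun t => ?_)).mp this
    ring
  have o2 : EB fun t => (G2 t + G2 (t + Real.pi)) / 2 := by
    have := (gx.add (hsh gx)).cmul (1 / 2)
    refine (congrArg EB (funext fun t => ?_)).mp this
    ring
  have o3 : EB fun t => (G3 t + G3 (t + Real.pi)) / 2 := by
    have := (gy.add (hsh gy)).cmul (1 / 2)
    refine (congrArg EB (funext fun t => ?_)).mp this
    ring
  have hre : EB fun t => ((β t).re : ℂ) := Pool.Agent.Helper50.SH.re_eb hb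
  have him : EB fun t => ((β t).im : ℂ) := Pool.Agent.Helper50.SH.im_eb hb
  have c2 : (starRingEnd ℂ) (2 : ℂ) = 2 := Complex.conj_ofReal 2
  -- the three rows
  have r1 := row gz o1 hρ pz (Pool.Agent.Helper26.SH.per2n hR.pr) (fun t => by
    rw [hR.pr, map_div₀, map_sub, c2]
    ring) 1 (c4 1) (fun c => by rw [ev4_c4]; push_cast; ring) A B dz qz hm.z
  have r2 := row gx o2 hre px (fun t => by rw [Pool.Agent.Helper26.SH.per2 hR.pb]) (fun t => by
    rw [hR.pb, map_div₀, map_add, c2]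
    ring) 2 (c4 2) (fun c => by rw [ev4_c4]; push_cast; ring) A B dx qx hm.x
  have r3 := row gy o3 him py (fun t => by rw [Pool.Agent.Helper26.SH.per2 hR.pb]) (fun t => by
    rw [hR.pb, map_div₀, map_add, c2]
    ring) (-(Complex.I * 2)) (c4i 2) (fun c => by rw [ev4_c4i]; push_cast; ring) A B dy qy hm.y
  have k1 : ‖(1 : ℂ)‖ = 1 := norm_one
  have k2 : ‖(2 : ℂ)‖ = 2 := by simp
  have k3 : ‖-(Complex.I * 2)‖ = 2 := by simp
  have n2 : N2 (fun t => ‖((β t).re : ℂ)‖) = N2 (fun t => (β t).re) := by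
    unfold N2
    congr 1
    exact mean_congr fun t => by simp only [Complex.norm_real, Real.norm_eq_abs, sq_abs]
  have n3 : N2 (fun t => ‖((β t).im : ℂ)‖) = N2 (fun t => (β t).im) := by
    unfold N2
    congr 1
    exact mean_congr fun t => by simp only [Complex.norm_real, Real.norm_eq_abs, sq_abs]
  rw [k1] at r1
  rw [k2, n2] at r2
  rw [k3, n3] at r3
  have m1 : mean (fun t => ((starRingEnd ℂ) (1 * G1 t) * ρ t).re) =
      mean (fun t => ((starRingEnd ℂ) (G1 t) * ρ t).re) := mean_congr fun t => by rw [one_mul]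
  have m2 : mean (fun t => 2 * (G2 t).re * (β t).re + 2 * (G3 t).im * (β t).im) =
      mean (fun t => ((starRingEnd ℂ) (2 * G2 t) * ((β t).re : ℂ)).re)
      + mean (fun t => ((starRingEnd ℂ) (-(Complex.I * 2) * G3 t) * ((β t).im : ℂ)).re) := by
    rw [← mean_add ((gx.cmul 2).cj.mul hre).br ((gy.cmul (-(Complex.I * 2))).cj.mul him).br]
    refine mean_congr fun t => ?_
    simp [Complex.mul_re, Complex.mul_im]
  rw [m1] at r1
  rw [hL, m2]
  have a1 := abs_le.mp r1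
  have a2 := abs_le.mp r2
  have a3 := abs_le.mp r3
  have s1 : rsm A B (rwZ dz qz) (fc ρ) =
    rsm A B (qz.map fun e => (frq e.1, ((dz : ℤ), [(m3 e.1, c4 1 e.2)]))) (fc ρ) := rfl
  have s2 : rsm A B (rwP dx qx) (fc fun t => ((β t).re : ℂ)) =
    rsm A B (qx.map fun e => (frq e.1, ((dx : ℤ), [(m3 e.1, c4 2 e.2)]))) (fc fun t => ((β t).re : ℂ)) := rfl
  have s3 : rsm A B (rwR dy qy) (fc fun t => ((β t).im : ℂ)) =
    rsm A B (qy.map fun e => (frq e.1, ((dy : ℤ), [(m3 e.1, c4i 2 e.2)]))) (fc fun t => ((β t).im : ℂ)) := rfl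
  rw [s1, s2, s3, abs_le]
  constructor <;> linarith [a1.1, a1.2, a2.1, a2.2, a3.1, a3.2]

end Pool.Agent.Helper33.GM
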