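import Pool.Agent.Helper33.SH.GDef

/-!
# SHARP (MP_b21509_co), link (6): the assembly (GA) from (GA1) and (GA2)
-/

set_option autoImplicit false

open MeasureTheory Set Filter Topology

namespace Pool.Agent.Helper50.SH

open Helper49.LT hiding sg
open Helper49.RC (om)
open Helper49.Sharp
open Helper56.RC (fc)
open Helper87.RC (BM)
open Helper95.SH (Dat eM_summable)
open Pool.Agent.Helper20.RC (lk lk_ge lk_sq)
open Pool.Agent.Helper43.SH
open Pool.Agent.Helper33.GL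

/-- bounded and measurable -/
def EB (f : ℝ → ℂ) : Prop := ∃ C, BM f C

theorem EB.add {f g : ℝ → ℂ} (h : EB f) (k : EB g) : EB fun t => f t + g t := by
  obtain ⟨C, h⟩ := h
  obtain ⟨D, k⟩ := k
  exact ⟨_, h.add k⟩

theorem EB.sub {f g : ℝ → ℂ} (h : EB f) (k : EB g) : EB fun t => f t - g t := by
  obtain ⟨C, h⟩ := h
  obtain ⟨D, k⟩ := k
  exact ⟨_, h.sub k⟩

theorem EB.mul {f g : ℝ → ℂ} (h : EB f) (k : EB g) : EB fun t => f t * g t := by
  obtain ⟨C, h⟩ := h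
  obtain ⟨D, k⟩ := k
  exact ⟨_, h.mul k⟩

theorem EB.cst (c : ℂ) : EB fun _ => c := ⟨_, BM.const' c⟩

theorem EB.cj {f : ℝ → ℂ} (h : EB f) : EB fun t => (starRingEnd ℂ) (f t) := by
  obtain ⟨C, h⟩ := h
  exact ⟨_, h.conj⟩

theorem EB.cmul {f : ℝ → ℂ} (h : EB f) (c : ℂ) : EB fun t => c * f t := (EB.cst c).mul h

theorem EB.pow {f : ℝ → ℂ} (h : EB f) (n : ℕ) : EB fun t => f t ^ n := by
  induction n with
  | zero => simpa using EB.cst 1
  | succ n ih =>
    have := ih.mul h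
    refine (congrArg EB (funext fun t => ?_)).mp this
    rw [pow_succ]

theorem EB.sum {ι : Type} (s : Finset ι) {f : ι → ℝ → ℂ} (h : ∀ i ∈ s, EB (f i)) : EB fun t => ∑ i ∈ s, f i t := by
  classical
  induction s using Finset.induction_on with
  | empty => simpa using EB.cst 0
  | insert a s ha ih =>
    have := (h a (Finset.mem_insert_self a s)).add (ih fun i hi => h i (Finset.mem_insert_of_mem hi))
    refine (congrArg EB (funext fun t => ?_)).mp this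
    rw [Finset.sum_insert ha]

theorem EB.ee (c : ℝ) : EB fun t => ee (c * t) := ⟨_, BM.eec c⟩

theorem EB.br {f : ℝ → ℂ} (h : EB f) : BR fun t => (f t).re := by
  obtain ⟨C, h⟩ := h
  exact BR.re h

theorem EB.bi {f : ℝ → ℂ} (h : EB f) : BR fun t => (f t).im := by
  obtain ⟨C, h⟩ := h
  exact BR.im h

section

variable {P : Par} {bs zs β ρ : ℝ → ℂ}

theorem Cl_eb (k : ℕ) : EB fun t => Cl P bs zs k t := (EB.ee _).cmul _

theorem El_eb (k : ℕ) : EB fun t => El P bs zs k t := (EB.ee _).cmul _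

theorem V1_eb (hr : P.Reg) : EB (V1 P bs zs) := by
  have hv : EB P.v1 := ⟨_, v1_bm hr⟩
  have hw : EB (W1 P) := W1_BM hr
  exact (hw.add (hv.cmul _)).add ((EB.sum _ fun k _ => (((Cl_eb k).mul (hv.pow _)).cmul _).add
    ((((Cl_eb k).mul (hv.pow _)).cj).cmul _)).cmul _)

theorem V2_eb (hr : P.Reg) : EB (V2 P bs zs) := by
  have hv : EB P.v2 := ⟨_, v2_bm hr⟩
  have hw : EB (W2 P) := W2_BM hr
  exact (hw.add (hv.cmul _)).add ((EB.sum _ fun k _ => (((Cl_eb k).mul (hv.pow _)).cmul _).add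
    ((((Cl_eb k).mul (hv.pow _)).cj).cmul _)).cmul _)

theorem qb_eb : EB (qb P bs) := by
  have h1 : EB fun t : ℝ => P.eta * ee (2 * t) / 3 := by
    have := (EB.ee 2).cmul (P.eta / 3)
    refine (congrArg EB (funext fun t => ?_)).mp this
    ring
  have h2 : EB fun t : ℝ => (starRingEnd ℂ) P.eta * ee (-2 * t) := (EB.ee (-2)).cmul _
  exact (((EB.cst 1).add h1).sub h2).add (EB.sum _ fun j _ => (EB.ee (((2 * j : ℤ) : ℝ))).cmul _)

theorem re_eb {f : ℝ → ℂ} (h : EB f) : EB fun t => ((f t).re : ℂ) := by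
  obtain ⟨C, h⟩ := h
  exact ⟨_, reC_BM h⟩

theorem im_eb {f : ℝ → ℂ} (h : EB f) : EB fun t => ((f t).im : ℂ) := by
  obtain ⟨C, h⟩ := h
  exact ⟨_, imC_BM h⟩

theorem X0_eb (hb : EB bs) : EB (X0 P bs zs) := by
  have h1 : EB fun t : ℝ => 2 / 3 * ((P.eta + P.sig bs) * ee (2 * t)) := ((EB.ee 2).cmul _).cmul _
  have h2 : EB fun t => ∑ k ∈ Finset.range 4, El P bs zs (k + 1) t / ((lk (k + 1) : ℂ) ^ 2 - 1) := by
    refine EB.sum _ fun k _ => ?_
    have := (El_eb (P := P) (bs := bs) (zs := zs) (k + 1)).cmul (((lk (k + 1) : ℂ) ^ 2 - 1)⁻¹)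
    refine (congrArg EB (funext fun t => ?_)).mp this
    rw [mul_comm, ← div_eq_mul_inv]
  exact (((h1.add qb_eb).add (EB.cst _)).sub h2).add ((re_eb hb).cmul _)

theorem Y0_eb (hb : EB bs) : EB (Y0 P bs zs) := by
  have h1 : EB fun t : ℝ => -(2 / 3 * ((P.eta + P.sig bs) * ee (2 * t))) := by
    have := ((EB.ee 2).cmul (P.eta + P.sig bs)).cmul (-(2 / 3))
    refine (congrArg EB (funext fun t => ?_)).mp this
    ring
  have h2 : EB fun t => qb P bs t / 2 := by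
    have := (qb_eb (P := P) (bs := bs)).cmul (1 / 2)
    refine (congrArg EB (funext fun t => ?_)).mp this
    ring
  have h3 : EB fun t => ∑ k ∈ Finset.range 4, (lk (k + 1) : ℂ) / (2 * ((lk (k + 1) : ℂ) ^ 2 - 1)) *
      El P bs zs (k + 1) t := EB.sum _ fun k _ => (El_eb (k + 1)).cmul _
  exact ((h1.add h2).add h3).add (((im_eb hb).cmul _).cmul _)

/-- the pointwise algebra -/
theorem alg (V1 V2 X Y b r : ℂ) :
    (2 * ((starRingEnd ℂ) V1 * g1L b r).re + 2 * ((starRingEnd ℂ) V2 * g2L b r).re)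
      + (2 * X.re * b.re + 2 * Y.im * b.im) =
    ((starRingEnd ℂ) (2 * (V1 - V2)) * r).re + (2 * (om * V1 + om ^ 2 * V2 + X).re * b.re
      + 2 * ((Complex.I * (Real.sqrt 3 : ℂ) + 1 / 4) * V1 + (Complex.I * (Real.sqrt 3 : ℂ) - 1 / 4) * V2 + Y).im
        * b.im) := by
  have h3 : Real.sqrt 3 * Real.sqrt 3 = 3 := Real.mul_self_sqrt (by norm_num)
  have q : (1 / 4 : ℂ) = ((1 / 4 : ℝ) : ℂ) := by norm_num
  rw [q]
  simp only [Complex.mul_re, Complex.mul_im, Complex.add_re, Complex.add_im, Complex.sub_re, Complex.sub_im,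
    Complex.conj_re, Complex.conj_im, g1L_re, g1L_im, g2L_re, g2L_im, om_re', om_im', pow_two, Complex.I_re,
    Complex.I_im, Complex.ofReal_re, Complex.ofReal_im, Complex.re_ofNat, Complex.im_ofNat]
  linear_combination (b.re * V2.re / 2) * h3

/-- the term of the sum of `LinP` for `γ = 0` -/
noncomputable def Tk (P : Par) (bs zs β ρ : ℝ → ℂ) (k : ℕ) : ℝ :=
  2 * (Hk (P.dal bs) k * (starRingEnd ℂ) (eR P β ρ k)).re
      + 2 * (hK β k * (starRingEnd ℂ) (P.eA bs zs k)).re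
      - 4 / P.nu * (lk k ^ 2 - 1) * ((starRingEnd ℂ) (Hk (P.dal bs) k) * hK β k).re
      - P.nu * ((starRingEnd ℂ) (P.eA bs zs k) * eR P β ρ k).re / (lk k ^ 2 - 1)

theorem Tk_summable (hr : P.Reg) (ds : Dat bs zs) (hb : EB β) (hρ : EB ρ) : Summable (Tk P bs zs β ρ) := by
  obtain ⟨C, hC⟩ := hb
  obtain ⟨C', hC'⟩ := hρ
  obtain ⟨E, hE⟩ := dl_BM hC
  obtain ⟨E2, h2⟩ := dal_BMd hr ds
  obtain ⟨D1, b1, b2⟩ := F_BMd hr ds
  obtain ⟨G1, c1⟩ := f1R_BM hC hC'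
  obtain ⟨G2, c2⟩ := f2R_BM hC hC'
  have ha := Hk_summable h2
  have hk : Summable fun k => (lk k ^ 2 - 1) * ‖hK β k‖ ^ 2 := Hk_summable (noh2_bm hE)
  have he : Summable fun k => ‖P.eA bs zs k‖ ^ 2 / (lk k ^ 2 - 1) :=
    eM_summable b1 b2 hr.mph1 hr.mph2 hr.dph1 hr.dph2
  have hx : Summable fun k => ‖eR P β ρ k‖ ^ 2 / (lk k ^ 2 - 1) :=
    eM_summable c1 c2 hr.mph1 hr.mph2 hr.dph1 hr.dph2
  have t1 := (sae ha hx).mul_left 2
  have t2 := (sae hk he).mul_left 2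
  have t3 := (saa ha hk).mul_left (4 / P.nu)
  have t4 := (see he hx).mul_left P.nu
  refine (((t1.add t2).sub t3).sub t4).congr fun k => ?_
  unfold Tk
  ring

end

/-- THE ASSEMBLY (GA) -/
theorem hGA (h1 : StGA1) (h2 : StGA2) : StGA := by
  intro P bs zs β ρ hr hga ds hR hj
  have hb : EB β := hR.bb
  have hρ : EB ρ := hR.br
  have hbs : EB bs := by
    obtain ⟨_, _, _, kb⟩ := g_BMd ds
    exact ⟨_, kb⟩
  have k1 := h1 P bs zs β ρ hr hR
  have k2 := h2 P bs zs β ρ hr ds hR hj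
  have hs := Tk_summable (P := P) hr ds hb hρ
  -- the sum
  have e1 : (∑' k : ℕ, (2 * (Hk (P.dal bs) k * (starRingEnd ℂ) (eR P β ρ k)).re
      + 2 * (hK β k * (starRingEnd ℂ) (P.eA bs zs k + P.ga k)).re
      - 4 / P.nu * (lk k ^ 2 - 1) * ((starRingEnd ℂ) (Hk (P.dal bs) k) * hK β k).re
      - P.nu * ((starRingEnd ℂ) (P.eA bs zs k - P.ga k) * eR P β ρ k).re / (lk k ^ 2 - 1))) =
      ∑' k : ℕ, Tk P bs zs β ρ k := by
    refine tsum_congr fun k => ?_
    have : P.ga k = 0 := by rw [hga]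
    rw [this, add_zero, sub_zero]
    rfl
  have e2 : ∑' k : ℕ, Tk P bs zs β ρ k = (∑ k ∈ Finset.range 5, Tk P bs zs β ρ k) + TailL P bs zs β ρ :=
    (hs.sum_add_tsum_nat_add 5).symm
  have e3 : (∑ k ∈ Finset.range 5, Tk P bs zs β ρ k) =
      (∑ k ∈ Finset.range 5, (2 * (Hk (P.dal bs) k * (starRingEnd ℂ) (eR P β ρ k)).re
        - P.nu * ((starRingEnd ℂ) (P.eA bs zs k) * eR P β ρ k).re / (lk k ^ 2 - 1)))
      + (∑ k ∈ Finset.range 5, (2 * (hK β k * (starRingEnd ℂ) (P.eA bs zs k)).re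
        - 4 / P.nu * (lk k ^ 2 - 1) * ((starRingEnd ℂ) (Hk (P.dal bs) k) * hK β k).re)) := by
    rw [← Finset.sum_add_distrib]
    refine Finset.sum_congr rfl fun k _ => ?_
    unfold Tk
    ring
  -- bounded functions
  have v1 : EB (V1 P bs zs) := V1_eb hr
  have v2 : EB (V2 P bs zs) := V2_eb hr
  have x0 : EB (X0 P bs zs) := X0_eb hbs
  have y0 : EB (Y0 P bs zs) := Y0_eb hbs
  have w1 : EB (W1 P) := W1_BM hr
  have w2 : EB (W2 P) := W2_BM hr
  have l1 : EB fun t => g1L (β t) (ρ t) := by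
    obtain ⟨C, hC⟩ := hb
    obtain ⟨C', hC'⟩ := hρ
    exact g1L_BM hC hC'
  have l2 : EB fun t => g2L (β t) (ρ t) := by
    obtain ⟨C, hC⟩ := hb
    obtain ⟨C', hC'⟩ := hρ
    exact g2L_BM hC hC'
  have gz : EB (GZ P bs zs) := (v1.sub v2).cmul 2
  have gx : EB (GX P bs zs) := ((v1.cmul om).add (v2.cmul (om ^ 2))).add x0
  have gy : EB (GY P bs zs) := ((v1.cmul _).add (v2.cmul _)).add y0
  -- the mean of the local term
  have m1 : mean (fun t => 2 * ((starRingEnd ℂ) (W1 P t) * g1L (β t) (ρ t)).re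
      + 2 * ((starRingEnd ℂ) (W2 P t) * g2L (β t) (ρ t)).re + 2 * (9 - P.cs) * ((starRingEnd ℂ) (bs t) * β t).re) =
      mean (fun t => 2 * ((starRingEnd ℂ) (W1 P t) * g1L (β t) (ρ t)).re
      + 2 * ((starRingEnd ℂ) (W2 P t) * g2L (β t) (ρ t)).re)
      + mean (fun t => 2 * (9 - P.cs) * ((starRingEnd ℂ) (bs t) * β t).re) :=
    mean_add ((((w1.cj.mul l1).br).cmul 2).add (((w2.cj.mul l2).br).cmul 2)) (((hbs.cj.mul hb).br).cmul _)
  have m2 : mean (fun t => 2 * ((starRingEnd ℂ) (V1 P bs zs t) * g1L (β t) (ρ t)).re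
      + 2 * ((starRingEnd ℂ) (V2 P bs zs t) * g2L (β t) (ρ t)).re)
      + mean (fun t => 2 * (X0 P bs zs t).re * (β t).re + 2 * (Y0 P bs zs t).im * (β t).im) =
      mean (fun t => ((starRingEnd ℂ) (GZ P bs zs t) * ρ t).re)
      + mean (fun t => 2 * (GX P bs zs t).re * (β t).re + 2 * (GY P bs zs t).im * (β t).im) := by
    have a1 := (((v1.cj.mul l1).br).cmul 2).add (((v2.cj.mul l2).br).cmul 2)
    have a2 := ((x0.br.cmul 2).mul hb.br).add ((y0.bi.cmul 2).mul hb.bi)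
    have a3 := (gz.cj.mul hρ).br
    have a4 := ((gx.br.cmul 2).mul hb.br).add ((gy.bi.cmul 2).mul hb.bi)
    rw [← mean_add a1 a2, ← mean_add a3 a4]
    exact mean_congr fun t => alg _ _ _ _ _ _
  unfold LinP
  rw [e1, e2, e3, m1]
  linear_combination k1 + k2 + m2

end Pool.Agent.Helper50.SH
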