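import Pool.Agent.Helper33.SH.GRow
import Pool.Agent.Helper50.SH.GA
import Pool.Agent.Helper19.SH.GA1
import Pool.Agent.Helper7.SH.GA2
import Pool.Agent.Helper7.SH.GX

/-!
# SHARP (MP_b21509_co), link (6): from the models of `GZ`, `GX`, `GY` to the rows of the budget
-/

set_option autoImplicit false

open MeasureTheory Set Filter Topology

namespace Pool.Agent.Helper33.GM

open Helper49.LT hiding sg s3
open Helper49.RC (om)
open Helper49.Sharp
open Helper56.RC (fc)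
open Helper87.RC (BM)
open Helper95.SH (Dat)
open Pool.Agent.Helper20.RC (lk lk_ge lk_sq)
open Pool.Agent.Helper35.Cas (Po Co Mo evP evC evM uu vv evM_uv evP_cons evP_nil frq s3)
open Pool.Agent.Helper33.SH (PI ZC b0I z0I v1_eq v2_eq W1_eq W2_eq)
open Pool.Agent.Helper33.GL
open Pool.Agent.Helper43.SH (LinP g_BMd)
open Pool.Agent.Helper50.SH (EB EB.add EB.sub EB.mul EB.cst EB.cj EB.cmul EB.pow EB.sum EB.ee EB.br EB.bi V1_eb V2_eb
  X0_eb Y0_eb)
open Pool.Agent.Helper26.SH (N2 N2_nonneg N2_sq)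
open Pool.Agent.Helper40.NR (Z4 M3 PZ FP evF)

/-! ### means -/

theorem mcst (c : ℝ) : mean (fun _ => c) = c := by
  unfold mean
  rw [intervalIntegral.integral_const]
  have := Real.pi_pos.ne'
  simp
  field_simp

/-- the mean is at most the norm of `L²` -/
theorem mean_le_N2 {f : ℝ → ℝ} (h : BR f) : mean f ≤ N2 f := by
  have h1 : 0 ≤ mean (fun t => (f t - mean f) ^ 2) := mean_nonneg fun _ => sq_nonneg _
  have h2 : mean (fun t => (f t - mean f) ^ 2) = mean (fun t => f t ^ 2) - mean f ^ 2 := by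
    have e1 : mean (fun t => (f t - mean f) ^ 2) = mean (fun t => (f t ^ 2 - (2 * mean f) * f t) + mean f ^ 2) :=
      mean_congr fun t => by ring
    rw [e1, mean_add (h.sq.sub (h.cmul _)) (BR.const _), mean_sub h.sq (h.cmul _), mean_cmul,
      mcst]
    ring
  have h3 : mean f ^ 2 ≤ N2 f ^ 2 := by
    rw [N2_sq]
    linarith
  exact le_of_abs_le (abs_le_of_sq_le_sq h3 (N2_nonneg f))

theorem row1 {x : ℝ → ℂ} (hx : EB x) (g : ℂ) (n : ℤ) :
    mean (fun t => ((starRingEnd ℂ) (g * ee ((n : ℝ) * t)) * x t).re) = ((starRingEnd ℂ) g * fc x n).re := by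
  obtain ⟨C, hC⟩ := hx
  have h1 := (((BM.eec (n : ℝ)).cmul g).conj).mul hC
  rw [← mean_re h1]
  congr 1
  unfold fc
  rw [mul_left_comm ((starRingEnd ℂ) g), ← intervalIntegral.integral_const_mul ((starRingEnd ℂ) g)]
  congr 1
  refine intervalIntegral.integral_congr fun t _ => ?_
  rw [map_mul, Pool.Agent.Helper35.Cas.conj_ee]
  ring

theorem evF_one (A : ℝ) (B : ℂ) (d : ℕ) (m : Mo) (z : Z4) (κ : ℂ) (c : Co)
    (h : Pool.Agent.Helper40.NR.ev4 z = κ * evC c) :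
    evF A B ((d : ℤ), [(m3 m, z)]) = κ * (evC c * evM (A : ℂ) B m / (d : ℂ)) := by
  unfold evF
  simp only [Pool.Agent.Helper40.NR.evP_cons, Pool.Agent.Helper40.NR.evP_nil, add_zero]
  rw [h]
  unfold Pool.Agent.Helper40.NR.evM m3 evM
  rw [Complex.conj_ofReal, pow_add]
  push_cast
  ring

theorem rows {x : ℝ → ℂ} (hx : EB x) (κ : ℂ) (cf : Co → Z4)
    (hcf : ∀ c, Pool.Agent.Helper40.NR.ev4 (cf c) = κ * evC c) (A : ℝ) (B : ℂ) (d : ℕ) : ∀ q : Po,
    mean (fun t => ((starRingEnd ℂ) (κ * (evP (uu A t) (vv B t) q / (d : ℂ))) * x t).re) =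
      rsm A B (q.map fun e => (frq e.1, ((d : ℤ), [(m3 e.1, cf e.2)]))) (fc x)
  | [] => by simp [rsm, mean]
  | e :: q => by
    have ih := rows hx κ cf hcf A B d q
    have e1 : ∀ t, ((starRingEnd ℂ) (κ * (evP (uu A t) (vv B t) (e :: q) / (d : ℂ))) * x t).re =
        ((starRingEnd ℂ) ((κ * (evC e.2 * evM (A : ℂ) B e.1 / (d : ℂ))) * ee ((frq e.1 : ℝ) * t)) * x t).re
        + ((starRingEnd ℂ) (κ * (evP (uu A t) (vv B t) q / (d : ℂ))) * x t).re := by
      intro t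
      rw [evP_cons, evM_uv]
      have h2 : (3 * (e.1.2.1 : ℤ) + 5 * (e.1.2.2.2 : ℤ) - 3 * (e.1.1 : ℤ) - 5 * (e.1.2.2.1 : ℤ)) = frq e.1 := rfl
      rw [h2, ← Complex.add_re, ← add_mul, ← map_add]
      congr 3
      ring
    have b1 : EB fun t => (κ * (evC e.2 * evM (A : ℂ) B e.1 / (d : ℂ))) * ee ((frq e.1 : ℝ) * t) :=
      (EB.ee _).cmul _
    have b2 : EB fun t => κ * (evP (uu A t) (vv B t) q / (d : ℂ)) := by
      have h3 : EB fun t => evP (uu A t) (vv B t) q := Pool.Agent.Helper7.GX.evP_BM A B q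
      have h4 := (h3.cmul ((d : ℂ)⁻¹)).cmul κ
      refine (congrArg EB (funext fun t => ?_)).mp h4
      ring
    rw [mean_congr e1, mean_add (b1.cj.mul hx).br (b2.cj.mul hx).br, row1 hx, ih]
    unfold rsm
    rw [List.map_cons, List.map_cons, List.sum_cons]
    congr 3
    simp only
    rw [evF_one A B d e.1 (cf e.2) κ e.2 (hcf e.2)]

/-! ### one row -/

theorem row {G O x : ℝ → ℂ} (hG : EB G) (hO : EB O) (hx : EB x) (pG : ∀ t, G (t + 2 * Real.pi) = G t)
    (px : ∀ t, x (t + 2 * Real.pi) = x t)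
    (ho : ∀ t, (starRingEnd ℂ) (G t) * x t + (starRingEnd ℂ) (G (t + Real.pi)) * x (t + Real.pi) =
      2 * ((starRingEnd ℂ) (O t) * x t))
    (κ : ℂ) (cf : Co → Z4) (hcf : ∀ c, Pool.Agent.Helper40.NR.ev4 (cf c) = κ * evC c) (A : ℝ) (B : ℂ) (d : ℕ)
    (q : Po) {e : ℝ} (he : ∀ t, ‖O t - evP (uu A t) (vv B t) q / (d : ℂ)‖ ≤ e) :
    |mean (fun t => ((starRingEnd ℂ) (κ * G t) * x t).re)
      - rsm A B (q.map fun e => (frq e.1, ((d : ℤ), [(m3 e.1, cf e.2)]))) (fc x)| ≤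
      ‖κ‖ * e * N2 (fun t => ‖x t‖) := by
  have kG : EB fun t => κ * G t := hG.cmul κ
  have kO : EB fun t => κ * O t := hO.cmul κ
  have h3 : EB fun t => evP (uu A t) (vv B t) q := Pool.Agent.Helper7.GX.evP_BM A B q
  have kM : EB fun t => κ * (evP (uu A t) (vv B t) q / (d : ℂ)) := by
    have h4 := (h3.cmul ((d : ℂ)⁻¹)).cmul κ
    refine (congrArg EB (funext fun t => ?_)).mp h4
    ring
  have e1 : mean (fun t => ((starRingEnd ℂ) (κ * G t) * x t).re) =
      mean (fun t => ((starRingEnd ℂ) (κ * O t) * x t).re) := by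
    rw [mean_pair (kG.cj.mul hx).br (fun t => by rw [pG, px]), ← mean_cmul]
    refine mean_congr fun t => ?_
    have h5 : (starRingEnd ℂ) (κ * G t) * x t + (starRingEnd ℂ) (κ * G (t + Real.pi)) * x (t + Real.pi) =
        2 * ((starRingEnd ℂ) (κ * O t) * x t) := by
      simp only [map_mul]
      linear_combination (starRingEnd ℂ) κ * ho t
    have h6 := congrArg Complex.re h5
    rw [Complex.add_re] at h6
    have h7 : (2 * ((starRingEnd ℂ) (κ * O t) * x t)).re = 2 * ((starRingEnd ℂ) (κ * O t) * x t).re := by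
      have := Complex.re_ofReal_mul 2 ((starRingEnd ℂ) (κ * O t) * x t)
      rwa [Complex.ofReal_ofNat] at this
    rw [h7] at h6
    rw [h6]
    ring
  rw [e1, ← rows hx κ cf hcf A B d q, ← mean_sub (kO.cj.mul hx).br (kM.cj.mul hx).br]
  obtain ⟨C, hC⟩ := hx
  have hn : BR fun t => ‖x t‖ := BR.nrm hC
  have h8 : ∀ t, |((starRingEnd ℂ) (κ * O t) * x t).re
      - ((starRingEnd ℂ) (κ * (evP (uu A t) (vv B t) q / (d : ℂ))) * x t).re| ≤ ‖κ‖ * e * ‖x t‖ := by
    intro t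
    rw [← Complex.sub_re, ← sub_mul, ← map_sub, ← mul_sub]
    refine (Complex.abs_re_le_norm _).trans ?_
    rw [norm_mul, RCLike.norm_conj, norm_mul]
    exact mul_le_mul_of_nonneg_right (mul_le_mul_of_nonneg_left (he t) (norm_nonneg _)) (norm_nonneg _)
  have hd : BR fun t => ((starRingEnd ℂ) (κ * O t) * x t).re
      - ((starRingEnd ℂ) (κ * (evP (uu A t) (vv B t) q / (d : ℂ))) * x t).re :=
    (kO.cj.mul ⟨C, hC⟩).br.sub (kM.cj.mul ⟨C, hC⟩).br
  have h9 := mean_mono hd (hn.cmul (‖κ‖ * e)) fun t => (abs_le.mp (h8 t)).2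
  have h10 := mean_mono (hn.cmul (-(‖κ‖ * e))) hd fun t => by
    have := (abs_le.mp (h8 t)).1
    linarith
  rw [mean_cmul] at h9 h10
  have e0 : 0 ≤ ‖κ‖ * e := mul_nonneg (norm_nonneg _) ((norm_nonneg _).trans (he 0))
  have h11 := mul_le_mul_of_nonneg_left (mean_le_N2 hn) e0
  rw [abs_le]
  constructor <;> linarith

/-! ### periods -/

theorem ee_int2 (n : ℤ) (t : ℝ) : ee ((n : ℝ) * (t + 2 * Real.pi)) = ee ((n : ℝ) * t) := by
  unfold ee
  rw [Complex.exp_eq_exp_iff_exists_int]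
  exact ⟨n, by push_cast; ring⟩

section

variable {c : ZC} {A : ℝ} {B : ℂ}

theorem Cl_per (P : Par) (bs zs : ℝ → ℂ) (k : ℕ) (t : ℝ) : Cl P bs zs k (t + 2 * Real.pi) = Cl P bs zs k t := by
  unfold Cl
  have h : lk k = (((2 * k + 2 : ℕ) : ℤ) : ℝ) := by
    unfold lk
    push_cast
    ring
  rw [h, ee_int2]

theorem El_per (P : Par) (bs zs : ℝ → ℂ) (k : ℕ) (t : ℝ) : El P bs zs k (t + 2 * Real.pi) = El P bs zs k t := by
  unfold El
  have h : lk k = (((2 * k + 2 : ℕ) : ℤ) : ℝ) := by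
    unfold lk
    push_cast
    ring
  rw [h, ee_int2]

theorem ee2p (t : ℝ) : ee (2 * (t + 2 * Real.pi)) = ee (2 * t) := by
  have := ee_int2 2 t
  push_cast at this
  exact this

theorem ee2m (t : ℝ) : ee (-2 * (t + 2 * Real.pi)) = ee (-2 * t) := by
  have := ee_int2 (-2) t
  push_cast at this
  exact this

theorem u1_per (hr : (PI c A B).Reg) (t : ℝ) : (PI c A B).u1 (t + 2 * Real.pi) = (PI c A B).u1 t := hr.pu1 t
theorem u2_per (hr : (PI c A B).Reg) (t : ℝ) : (PI c A B).u2 (t + 2 * Real.pi) = (PI c A B).u2 t := hr.pu2 t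

theorem V1_per (hr : (PI c A B).Reg) (bs zs : ℝ → ℂ) (t : ℝ) :
    V1 (PI c A B) bs zs (t + 2 * Real.pi) = V1 (PI c A B) bs zs t := by
  have h1 : Pool.Agent.Helper43.SH.W1 (PI c A B) (t + 2 * Real.pi) = Pool.Agent.Helper43.SH.W1 (PI c A B) t := by
    have := W1_eq c A B (t + 2 * Real.pi)
    rw [u1_per hr, ee2p, ← W1_eq] at this
    exact this
  unfold V1
  rw [h1, v1_eq, v1_eq, u1_per hr]
  simp only [Cl_per]

theorem V2_per (hr : (PI c A B).Reg) (bs zs : ℝ → ℂ) (t : ℝ) :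
    V2 (PI c A B) bs zs (t + 2 * Real.pi) = V2 (PI c A B) bs zs t := by
  have h1 : Pool.Agent.Helper43.SH.W2 (PI c A B) (t + 2 * Real.pi) = Pool.Agent.Helper43.SH.W2 (PI c A B) t := by
    have := W2_eq c A B (t + 2 * Real.pi)
    rw [u2_per hr, ee2p, ← W2_eq] at this
    exact this
  unfold V2
  rw [h1, v2_eq, v2_eq, u2_per hr]
  simp only [Cl_per]

theorem qb_per (P : Par) (bs : ℝ → ℂ) (t : ℝ) : qb P bs (t + 2 * Real.pi) = qb P bs t := by
  unfold qb
  rw [ee2p, ee2m]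
  simp only [ee_int2]

theorem X0_per (P : Par) (bs zs : ℝ → ℂ) (hb : ∀ t, bs (t + Real.pi) = bs t) (t : ℝ) :
    X0 P bs zs (t + 2 * Real.pi) = X0 P bs zs t := by
  unfold X0
  rw [ee2p, qb_per, Pool.Agent.Helper26.SH.per2 hb]
  simp only [El_per]

theorem Y0_per (P : Par) (bs zs : ℝ → ℂ) (hb : ∀ t, bs (t + Real.pi) = bs t) (t : ℝ) :
    Y0 P bs zs (t + 2 * Real.pi) = Y0 P bs zs t := by
  unfold Y0
  rw [ee2p, qb_per, Pool.Agent.Helper26.SH.per2 hb]
  simp only [El_per]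

end

/-! ### the coefficients -/

theorem ev4_c4 (k : ℤ) (c : Co) : Pool.Agent.Helper40.NR.ev4 (c4 k c) = (k : ℂ) * evC c := by
  unfold Pool.Agent.Helper40.NR.ev4 c4 evC s3
  push_cast
  ring

theorem ev4_c4i (k : ℤ) (c : Co) : Pool.Agent.Helper40.NR.ev4 (c4i k c) = (-(Complex.I * k)) * evC c := by
  unfold Pool.Agent.Helper40.NR.ev4 c4i evC s3
  push_cast
  linear_combination ((k : ℂ) * c.2 * ((Real.sqrt 3 : ℝ) : ℂ)) * Complex.I_mul_I

/-- (R): the rows of `LinP` -/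
theorem hStR : StR := by
  intro c A B ez ex ey β ρ hA hr ds hj hm hR
  have hga : (PI c A B).ga = fun _ => 0 := rfl
  have hL := Pool.Agent.Helper50.SH.hGA hGA1 Pool.Agent.Helper7.GL.hGA2 (PI c A B) (b0I A B) (z0I A B) β ρ hr hga ds hR hj
  have hb : EB β := hR.bb
  have hρ : EB ρ := hR.br
  have hbs : EB (b0I A B) := by
    obtain ⟨_, _, _, kb⟩ := g_BMd ds
    exact ⟨_, kb⟩
  have v1 : EB (V1 (PI c A B) (b0I A B) (z0I A B)) := V1_eb hr
  have v2 : EB (V2 (PI c A B) (b0I A B) (z0I A B)) := V2_eb hr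
  have x0 : EB (X0 (PI c A B) (b0I A B) (z0I A B)) := X0_eb hbs
  have y0 : EB (Y0 (PI c A B) (b0I A B) (z0I A B)) := Y0_eb hbs
  have gz : EB (GZ (PI c A B) (b0I A B) (z0I A B)) := (v1.sub v2).cmul 2
  have gx : EB (GX (PI c A B) (b0I A B) (z0I A B)) := ((v1.cmul om).add (v2.cmul (om ^ 2))).add x0
  have gy : EB (GY (PI c A B) (b0I A B) (z0I A B)) := ((v1.cmul _).add (v2.cmul _)).add y0
  have pz : ∀ t, GZ (PI c A B) (b0I A B) (z0I A B) (t + 2 * Real.pi) = GZ (PI c A B) (b0I A B) (z0I A B) t := by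
    intro t
    unfold GZ
    rw [V1_per hr, V2_per hr]
  have px : ∀ t, GX (PI c A B) (b0I A B) (z0I A B) (t + 2 * Real.pi) = GX (PI c A B) (b0I A B) (z0I A B) t := by
    intro t
    unfold GX
    rw [V1_per hr, V2_per hr, X0_per _ _ _ ds.pb]
  have py : ∀ t, GY (PI c A B) (b0I A B) (z0I A B) (t + 2 * Real.pi) = GY (PI c A B) (b0I A B) (z0I A B) t := by
    intro t
    unfold GY
    rw [V1_per hr, V2_per hr, Y0_per _ _ _ ds.pb]
  set G1 := GZ (PI c A B) (b0I A B) (z0I A B) with hG1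
  set G2 := GX (PI c A B) (b0I A B) (z0I A B) with hG2
  set G3 := GY (PI c A B) (b0I A B) (z0I A B) with hG3
  have hsh : ∀ {f : ℝ → ℂ}, EB f → EB fun t => f (t + Real.pi) := by
    intro f hf
    obtain ⟨C, hC⟩ := hf
    exact ⟨C, hC.m.comp (measurable_id.add_const _), fun t => hC.b _⟩
  have o1 : EB fun t => (G1 t - G1 (t + Real.pi)) / 2 := by
    have := (gz.sub (hsh gz)).cmul (1 / 2)
    refine (congrArg EB (funext fun t => ?_)).mp this
    ring
  have o2 : EB fun t => (G2 t + G2 (t + Real.pi)) / 2 := by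
    have := (gx.add (hsh gx)).cmul (1 / 2)
    refine (congrArg EB (funext fun t => ?_)).mp this
    ring
  have o3 : EB fun t => (G3 t + G3 (t + Real.pi)) / 2 := by
    have := (gy.add (hsh gy)).cmul (1 / 2)
    refine (congrArg EB (funext fun t => ?_)).mp this
    ring
  have hre : EB fun t => ((β t).re : ℂ) := Pool.Agent.Helper50.SH.re_eb hb
  have him : EB fun t => ((β t).im : ℂ) := Pool.Agent.Helper50.SH.im_eb hb
  have c2 : (starRingEnd ℂ) (2 : ℂ) = 2 := Complex.conj_ofReal 2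
  -- the three rows
  have r1 := row gz o1 hρ pz (Pool.Agent.Helper26.SH.per2n hR.pr) (fun t => by
    rw [hR.pr, map_div₀, map_sub, c2]
    ring) 1 (c4 1) (fun c => by rw [ev4_c4]; push_cast; ring) A B dz qz hm.z
  have r2 := row gx o2 hre px (fun t => by rw [Pool.Agent.Helper26.SH.per2 hR.pb]) (fun t => by
    rw [hR.pb, map_div₀, map_add, c2]
    ring) 2 (c4 2) (fun c => by rw [ev4_c4]; push_cast; ring) A B dx qx hm.x
  have r3 := row gy o3 him py (fun t => by rw [Pool.Agent.Helper26.SH.per2 hR.pb]) (fun t => by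
    rw [hR.pb, map_div₀, map_add, c2]
    ring) (-(Complex.I * 2)) (c4i 2) (fun c => by rw [ev4_c4i]; push_cast; ring) A B dy qy hm.y
  have k1 : ‖(1 : ℂ)‖ = 1 := norm_one
  have k2 : ‖(2 : ℂ)‖ = 2 := by simp
  have k3 : ‖-(Complex.I * 2)‖ = 2 := by simp
  have n2 : N2 (fun t => ‖((β t).re : ℂ)‖) = N2 (fun t => (β t).re) := by
    unfold N2
    congr 1
    exact mean_congr fun t => by simp only [Complex.norm_real, Real.norm_eq_abs, sq_abs]
  have n3 : N2 (fun t => ‖((β t).im : ℂ)‖) = N2 (fun t => (β t).im) := by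
    unfold N2
    congr 1
    exact mean_congr fun t => by simp only [Complex.norm_real, Real.norm_eq_abs, sq_abs]
  rw [k1] at r1
  rw [k2, n2] at r2
  rw [k3, n3] at r3
  have m1 : mean (fun t => ((starRingEnd ℂ) (1 * G1 t) * ρ t).re) =
      mean (fun t => ((starRingEnd ℂ) (G1 t) * ρ t).re) := mean_congr fun t => by rw [one_mul]
  have m2 : mean (fun t => 2 * (G2 t).re * (β t).re + 2 * (G3 t).im * (β t).im) =
      mean (fun t => ((starRingEnd ℂ) (2 * G2 t) * ((β t).re : ℂ)).re)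
      + mean (fun t => ((starRingEnd ℂ) (-(Complex.I * 2) * G3 t) * ((β t).im : ℂ)).re) := by
    rw [← mean_add ((gx.cmul 2).cj.mul hre).br ((gy.cmul (-(Complex.I * 2))).cj.mul him).br]
    refine mean_congr fun t => ?_
    simp [Complex.mul_re, Complex.mul_im]
  rw [m1] at r1
  rw [hL, m2]
  have a1 := abs_le.mp r1
  have a2 := abs_le.mp r2
  have a3 := abs_le.mp r3
  have a4 := neg_abs_le (TailL (PI c A B) (b0I A B) (z0I A B) β ρ)
  have a5 := le_abs_self (TailL (PI c A B) (b0I A B) (z0I A B) β ρ)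
  have s1 : rsm A B (rwZ dz qz) (fc ρ) =
    rsm A B (qz.map fun e => (frq e.1, ((dz : ℤ), [(m3 e.1, c4 1 e.2)]))) (fc ρ) := rfl
  have s2 : rsm A B (rwP dx qx) (fc fun t => ((β t).re : ℂ)) =
    rsm A B (qx.map fun e => (frq e.1, ((dx : ℤ), [(m3 e.1, c4 2 e.2)]))) (fc fun t => ((β t).re : ℂ)) := rfl
  have s3 : rsm A B (rwR dy qy) (fc fun t => ((β t).im : ℂ)) =
    rsm A B (qy.map fun e => (frq e.1, ((dy : ℤ), [(m3 e.1, c4i 2 e.2)]))) (fc fun t => ((β t).im : ℂ)) := rfl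
  rw [s1, s2, s3, abs_le]
  constructor <;> linarith [a1.1, a1.2, a2.1, a2.2, a3.1, a3.2]

end Pool.Agent.Helper33.GM
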