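import Pool.Agent.Helper20.RC.Link2
import Pool.Agent.Helper48.SH.Bas

/-!
# Project RC, SHARP, link 4: from the pointwise local lemma to the means (arbitrary base, weight `wt`)

`res D e`: the residual `‖e‖ - ⟨e, D⟩/‖D‖` of the norm at the base edge `D`. `tg η t D e`: the tangent functional at `D`
of the weighted norm `‖e‖ h_w(t + arg e)`. Pointwise (`pt`): weighted norm `≥ tg + m res` with `m ≤ min w`.
`mean4`: the mean over the direction. The pair `t, t + π` is kept together in the hypothesis.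
-/

open MeasureTheory Set Filter Metric

namespace Helper50.SH

open Helper49.LT Helper87.RC
open Helper44.RCG (G1 G2)
open Pool.Agent.Helper20.RC

/-- derivative of `hw` -/
noncomputable def hw1 (η2 η6 η10 : ℂ) (φ : ℝ) : ℝ :=
  -2 * ((η2 * (((2 : ℝ) : ℂ) * Complex.I * ee (2 * φ))).re / 3
    + (η6 * (((6 : ℝ) : ℂ) * Complex.I * ee (6 * φ))).re / 35
    + (η10 * (((10 : ℝ) : ℂ) * Complex.I * ee (10 * φ))).re / 99)

theorem re_der {f : ℝ → ℂ} {f' : ℂ} {x : ℝ} (h : HasDerivAt f f' x) :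
    HasDerivAt (fun t => (f t).re) f'.re x := by
  have h1 := (Complex.reCLM.hasFDerivAt (x := f x)).comp_hasDerivAt x h
  exact h1

theorem re_ek (η : ℂ) (k x : ℝ) :
    HasDerivAt (fun t => (η * ee (k * t)).re) (η * ((k : ℂ) * Complex.I * ee (k * x))).re x :=
  re_der ((hasDerivAt_ee k x).const_mul η)

theorem hw_der (η2 η6 η10 : ℂ) (x : ℝ) : HasDerivAt (hw η2 η6 η10) (hw1 η2 η6 η10 x) x := by
  have h := (((((re_ek η2 2 x).div_const 3).add ((re_ek η6 6 x).div_const 35)).add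
    ((re_ek η10 10 x).div_const 99)).const_mul 2).const_sub 1
  unfold hw1
  refine h.congr_deriv ?_
  ring

theorem hw1_der (η2 η6 η10 : ℂ) (x : ℝ) :
    HasDerivAt (hw1 η2 η6 η10) ((wt η2 η6 η10 x).re - hw η2 η6 η10 x) x := by
  have k : ∀ (η : ℂ) (c : ℝ), HasDerivAt (fun t => (η * ((c : ℂ) * Complex.I * ee (c * t))).re)
      (-(c ^ 2) * (η * ee (c * x)).re) x := by
    intro η c
    have h := re_der (((hasDerivAt_ee c x).const_mul ((c : ℂ) * Complex.I)).const_mul η)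
    refine h.congr_deriv ?_
    have e : η * ((c : ℂ) * Complex.I * ((c : ℂ) * Complex.I * ee (c * x))) =
        ((-(c ^ 2) : ℝ) : ℂ) * (η * ee (c * x)) := by
      push_cast
      linear_combination (η * (c : ℂ) ^ 2 * ee (c * x)) * Complex.I_sq
    rw [e, Complex.re_ofReal_mul]
  have h := ((((k η2 2).div_const 3).add ((k η6 6).div_const 35)).add
    ((k η10 10).div_const 99)).const_mul (-2)
  refine h.congr_deriv ?_
  rw [wt_real, Complex.ofReal_re]
  unfold hw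
  simp only [Complex.add_re]
  ring

theorem hw_per (η2 η6 η10 : ℂ) : Function.Periodic (hw η2 η6 η10) (2 * Real.pi) := by
  intro x
  unfold hw
  have h2 := ee_int 2 x
  have h6 := ee_int 6 x
  have h10 := ee_int 10 x
  norm_num at h2 h6 h10
  rw [h2, h6, h10]

theorem hw1_per (η2 η6 η10 : ℂ) : Function.Periodic (hw1 η2 η6 η10) (2 * Real.pi) := by
  intro x
  unfold hw1
  have h2 := ee_int 2 x
  have h6 := ee_int 6 x
  have h10 := ee_int 10 x
  norm_num at h2 h6 h10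
  rw [h2, h6, h10]

theorem hw_pi (η2 η6 η10 : ℂ) (x : ℝ) : hw η2 η6 η10 (x + Real.pi) = hw η2 η6 η10 x := by
  have h : ∀ k : ℤ, ee (((2 * k : ℤ) : ℝ) * (x + Real.pi)) = ee (((2 * k : ℤ) : ℝ) * x) := by
    intro k
    have e : ((2 * k : ℤ) : ℝ) * (x + Real.pi) = ((2 * k : ℤ) : ℝ) * x + ((k : ℤ) : ℝ) * (2 * Real.pi) := by
      push_cast; ring
    rw [e, ee_add, ee_int_mul k (2 * Real.pi), ee_two_pi, one_zpow, mul_one]
  have h2 := h 1
  have h6 := h 3
  have h10 := h 5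
  norm_num at h2 h6 h10
  unfold hw
  rw [h2, h6, h10]

/-- the residual of the norm -/
noncomputable def res (D e : ℂ) : ℝ := ‖e‖ - (e * (starRingEnd ℂ) D).re / ‖D‖

/-- the tangent functional of the weighted norm `‖e‖ hw (t + arg e)` at `D` -/
noncomputable def tg (η2 η6 η10 : ℂ) (t : ℝ) (D e : ℂ) : ℝ :=
  hw η2 η6 η10 (t + D.arg) * ((e * (starRingEnd ℂ) D).re / ‖D‖)
    + hw1 η2 η6 η10 (t + D.arg) * ((e * (starRingEnd ℂ) D).im / ‖D‖)

theorem res_nonneg (D e : ℂ) (hD : D ≠ 0) : 0 ≤ res D e := by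
  unfold res
  have hn : 0 < ‖D‖ := norm_pos_iff.mpr hD
  have h := Complex.re_le_norm (e * (starRingEnd ℂ) D)
  rw [norm_mul, Complex.norm_conj] at h
  have : (e * (starRingEnd ℂ) D).re / ‖D‖ ≤ ‖e‖ := by
    rw [div_le_iff₀ hn]; exact h
  linarith

/-- **the weighted pointwise inequality** -/
theorem pt (η2 η6 η10 : ℂ) (m : ℝ) (hm : ∀ φ, m ≤ (wt η2 η6 η10 φ).re) (t a : ℝ) (D e : ℂ) (hD : D ≠ 0)
    (h : ee t * e = (‖e‖ : ℂ) * ee a) :
    tg η2 η6 η10 t D e + m * res D e ≤ ‖e‖ * hw η2 η6 η10 a := by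
  have hn : 0 < ‖D‖ := norm_pos_iff.mpr hD
  obtain ⟨Δ, hΔ⟩ : ∃ Δ, a = t + D.arg + Δ := ⟨a - t - D.arg, by ring⟩
  have hDe : D = (‖D‖ : ℂ) * ee D.arg := by
    have h2 := Complex.norm_mul_exp_arg_mul_I D
    unfold ee
    exact h2.symm
  have key : e * (starRingEnd ℂ) D = ((‖e‖ * ‖D‖ : ℝ) : ℂ) * ee Δ := by
    have h1 : e = (‖e‖ : ℂ) * ee (D.arg + Δ) := by
      calc e = (starRingEnd ℂ) (ee t) * (ee t * e) := by rw [← mul_assoc, ee_conj_mul, one_mul]
        _ = (starRingEnd ℂ) (ee t) * ((‖e‖ : ℂ) * ee (t + (D.arg + Δ))) := by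
          rw [h, hΔ, add_assoc]
        _ = ((starRingEnd ℂ) (ee t) * ee t) * ((‖e‖ : ℂ) * ee (D.arg + Δ)) := by
          rw [ee_add t]; ring
        _ = _ := by rw [ee_conj_mul, one_mul]
    calc e * (starRingEnd ℂ) D
        = ((‖e‖ : ℂ) * ee (D.arg + Δ)) * (starRingEnd ℂ) ((‖D‖ : ℂ) * ee D.arg) := by
          rw [← h1, ← hDe]
      _ = ((‖e‖ : ℂ) * (‖D‖ : ℂ)) * ((ee D.arg * (starRingEnd ℂ) (ee D.arg)) * ee Δ) := by
          rw [ee_add, map_mul, Complex.conj_ofReal]; ring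
      _ = _ := by rw [ee_mul_conj]; push_cast; ring
  have hre : (e * (starRingEnd ℂ) D).re / ‖D‖ = ‖e‖ * Real.cos Δ := by
    rw [key, Complex.re_ofReal_mul, ee_re]
    field_simp
  have him : (e * (starRingEnd ℂ) D).im / ‖D‖ = ‖e‖ * Real.sin Δ := by
    rw [key, Complex.im_ofReal_mul, ee_im]
    field_simp
  -- reduce the angle
  have hp : (0 : ℝ) < 2 * Real.pi := by positivity
  set k := toIocDiv hp (-Real.pi) Δ with hk
  have hmem := sub_toIocDiv_zsmul_mem_Ioc hp (-Real.pi) Δ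
  rw [← hk] at hmem
  have habs : |Δ - k • (2 * Real.pi)| ≤ Real.pi := by
    rw [abs_le]
    constructor
    · exact hmem.1.le
    · have := hmem.2; linarith
  have hs := Helper48.SH.sup_ge (hw η2 η6 η10) (hw1 η2 η6 η10)
    (fun x => (wt η2 η6 η10 x).re - hw η2 η6 η10 x) m (t + D.arg) (Δ - k • (2 * Real.pi))
    (hw_der η2 η6 η10) (hw1_der η2 η6 η10) (fun x => by simpa using hm x) habs
  have c1 : Real.cos (Δ - k • (2 * Real.pi)) = Real.cos Δ := Real.cos_periodic.sub_zsmul_eq k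
  have c2 : Real.sin (Δ - k • (2 * Real.pi)) = Real.sin Δ := Real.sin_periodic.sub_zsmul_eq k
  have c3 : hw η2 η6 η10 (t + D.arg + (Δ - k • (2 * Real.pi))) = hw η2 η6 η10 a := by
    rw [hΔ, ← add_sub_assoc]
    exact (hw_per η2 η6 η10).sub_zsmul_eq k
  rw [c1, c2, c3] at hs
  have hfin := mul_le_mul_of_nonneg_left hs (norm_nonneg e)
  unfold tg res
  rw [hre, him]
  linarith

end Helper50.SH
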